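import Pool.Agent.H605Z.Pol.Final

/-!
# `(λ⁺, λ⁺) → (λ⁺, ℵ₁; λ, λ)` is independent of ZFC + GCH (modulo a supercompact cardinal)
-/

set_option autoImplicit false

namespace Pool.Agent.Results.MP_d40573_lc.AIndependent

open Cardinal Pool.Agent.H605Z.Pol Pool.Agent.Helper980.G Pool.Agent.H68Z.Inj

/-- Assume GCH and let `κ₀` be supercompact. For both truth values `b`: some forcing notion forces
GCH and decides the relation for `λ = ℵ_ω` (computed in the extension) according to `b`; and for
every `λ > κ₀` of countable cofinality some forcing notion preserves `λ` and `λ⁺`, forces GCH and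
decides the relation for `λ` according to `b`. -/
theorem result (hG : ∀ ν : Cardinal.{0}, ℵ₀ ≤ ν → 2 ^ ν = Order.succ ν) (κ₀ : Cardinal.{0})
    (h : IsSupercompact κ₀) (b : Bool) :
    (∃ (P : Type) (_ : Preorder P) (a : ℕ → Cardinal.{0}), Alephs P a ∧
      Setting P (a 1) (⨆ n, a n) ∧ Decides b (RelationS P (Order.succ (⨆ n, a n)).ord.ToType
        (⨆ n, a n).ord.ToType (a 1).ord.ToType)) ∧
    ∀ lam : Cardinal.{0}, κ₀ < lam → lam.ord.cof = ℵ₀ →
      ∃ (P : Type) (_ : Preorder P) (w : Cardinal.{0}), Setting P w lam ∧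
        Decides b (RelationS P (Order.succ lam).ord.ToType lam.ord.ToType w.ord.ToType) :=
  mainS hG κ₀ h b

end Pool.Agent.Results.MP_d40573_lc.AIndependent
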